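import Pool.Agent.Helper23.LW.Spec

/-!
# NCT: the curve passes only finitely often through each point
-/

set_option autoImplicit false
set_option linter.all false

namespace Pool.Agent.Helper47.LW.NCT

open MvPolynomial Pool.Agent.Helper23.LW

theorem eval_wsc {M : ℕ} (w : Fin M → ℕ) {G : MvPolynomial (Fin M) ℂ} {b : ℕ}
    (hG : IsWeightedHomogeneous w G b) (l : ℂ) (R : Fin M → ℂ) :
    eval (wsc w l R) G = l ^ b * eval R G := by
  rw [eval_eq', eval_eq', Finset.mul_sum]
  refine Finset.sum_congr rfl fun d hd => ?_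
  have h1 : Finsupp.weight w d = b := hG (mem_support_iff.1 hd)
  rw [Finsupp.weight_apply, Finsupp.sum_fintype _ _ (fun i => by simp)] at h1
  have h2 : ∏ i, (wsc w l R i) ^ d i = l ^ b * ∏ i, R i ^ d i := by
    simp only [wsc, mul_pow, Finset.prod_mul_distrib]
    congr 1
    simp only [← pow_mul]
    rw [Finset.prod_pow_eq_pow_sum, ← h1]
    congr 1
    exact Finset.sum_congr rfl fun i _ => by simp [mul_comm]
  rw [h2]
  ring

theorem eval_aeval {M : ℕ} (c : Fin M → Polynomial ℂ) (G : MvPolynomial (Fin M) ℂ) (t : ℂ) :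
    Polynomial.eval t (aeval c G : Polynomial ℂ) = eval (fun i => (c i).eval t) G := by
  induction G using MvPolynomial.induction_on with
  | C a => simp
  | add p q hp hq => simp [hp, hq]
  | mul_X p i hp => simp [hp]

theorem main : St_NCT := by
  intro M w G b hw hG hb c γ g hg hcG hi hnc R
  by_contra hinf
  have hinf : {t : ℂ | ∃ l : ℂ, l ≠ 0 ∧ (fun i => (c i).eval t) = wsc w l R}.Infinite := hinf
  have h1 : ∀ t l : ℂ, (fun i => (c i).eval t) = wsc w l R →
      l ^ b * eval R G = g * (1 + γ * t) := by
    intro t l h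
    have h2 := eval_aeval c G t
    rw [h, eval_wsc w hG, hcG] at h2
    rw [← h2]
    simp
  have hρ : eval R G ≠ 0 := by
    intro h0
    -- then g (1 + γ t) = 0 infinitely often
    have h3 : (Polynomial.C g * (1 + Polynomial.C γ * Polynomial.X) : Polynomial ℂ) = 0 := by
      refine Polynomial.eq_of_infinite_eval_eq _ _ (hinf.mono ?_)
      rintro t ⟨l, hl, h⟩
      have h4 := h1 t l h
      rw [h0, mul_zero] at h4
      show Polynomial.eval t (Polynomial.C g * (1 + Polynomial.C γ * Polynomial.X)) =
        Polynomial.eval t 0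
      rw [Polynomial.eval_mul, Polynomial.eval_C, Polynomial.eval_add, Polynomial.eval_one,
        Polynomial.eval_mul, Polynomial.eval_C, Polynomial.eval_X, Polynomial.eval_zero, ← h4]
    have h4 := congrArg (Polynomial.eval 0) h3
    simp at h4
    exact hg h4
  have key : ∀ i, (c i) ^ b = Polynomial.C (R i ^ b * (g / eval R G) ^ w i) *
      (1 + Polynomial.C γ * Polynomial.X) ^ w i := by
    intro i
    refine Polynomial.eq_of_infinite_eval_eq _ _ (hinf.mono ?_)
    rintro t ⟨l, hl, h⟩
    have h4 := h1 t l h
    have h5 : l ^ b = g / eval R G * (1 + γ * t) := by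
      field_simp
      linear_combination h4
    have h6 : (c i).eval t = l ^ w i * R i := congrFun h i
    show Polynomial.eval t ((c i) ^ b) = _
    rw [Polynomial.eval_pow, h6]
    have h7 : (l ^ w i * R i) ^ b = (l ^ b) ^ w i * R i ^ b := by
      rw [mul_pow, ← pow_mul, ← pow_mul, mul_comm (w i) b]
    rw [h7, h5]
    simp [mul_pow]
    ring
  by_cases hγ : γ = 0
  · obtain ⟨i, hi⟩ := hnc
    apply hi
    have h2 := key i
    rw [hγ] at h2
    simp only [map_zero, zero_mul, add_zero, one_pow, mul_one] at h2
    have h3 : (c i ^ b).natDegree = 0 := by rw [h2, Polynomial.natDegree_C]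
    rw [Polynomial.natDegree_pow] at h3
    have h4 : (c i).natDegree = 0 := by
      rcases Nat.mul_eq_zero.1 h3 with h | h
      · omega
      · exact h
    rw [Polynomial.eq_C_of_natDegree_eq_zero h4]
    simp
  · obtain ⟨i, hi0, hbi⟩ := hi
    apply hbi
    have h2 := key i
    have hA : R i ^ b * (g / eval R G) ^ w i ≠ 0 := by
      intro h0
      rw [h0, map_zero, zero_mul] at h2
      have h3 : c i = 0 := by
        exact pow_eq_zero_iff (by omega) |>.1 h2
      rw [h3] at hi0
      simp at hi0
    have h3 : ((1 + Polynomial.C γ * Polynomial.X) : Polynomial ℂ).natDegree = 1 := by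
      rw [add_comm, ← Polynomial.C_1]
      exact Polynomial.natDegree_linear hγ
    have h4 : (c i ^ b).natDegree = w i := by
      rw [h2, Polynomial.natDegree_C_mul hA, Polynomial.natDegree_pow, h3, mul_one]
    rw [Polynomial.natDegree_pow] at h4
    exact ⟨_, h4.symm⟩

end Pool.Agent.Helper47.LW.NCT
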