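import Pool.Agent.Helper23.LW.Spec

/-!
# ZER: common zeros of weighted homogeneous polynomials
-/

set_option autoImplicit false
set_option linter.all false

namespace Pool.Agent.Helper47.LW.ZER

open MvPolynomial Pool.Agent.Helper23.LW

theorem main : St_ZER := by
  intro κ J _ _ u hu E d hd hE hcard
  refine Pool.Agent.H952R2.Sextic.exists_common_zero hcard E ?_
  intro j
  have h1 : eval 0 (E j) = constantCoeff (E j) := by
    rw [← MvPolynomial.eval_zero]
  rw [h1, constantCoeff_eq]
  refine (hE j).coeff_eq_zero 0 ?_
  rw [map_zero]
  exact (hd j).ne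

end Pool.Agent.Helper47.LW.ZER
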